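import Mathlib

/-!
# Unit discs in a square: equality in the quadratic bound never occurs

`s_n` is the minimal side of a square containing `n` nonoverlapping unit discs and
`F(s) = s^2 - (3 + √3) s + 2 + 2 √3`. Rows of discs in the hexagonal pattern give
`(s_n - 2)^2 ≤ √12 (n - 1)` for all `n ≥ 1`, and this is stronger than `F(s_n) ≤ √12 n`.
-/

set_option autoImplicit false

namespace Pool.Agent.Results.MP_77b5a8_co.HexagonalBound

open Finset

/-- the Euclidean plane -/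
abbrev Plane := EuclideanSpace ℝ (Fin 2)

/-- the square `[0,s]^2` -/
def standardSquare (s : ℝ) : Set Plane := {x | ∀ i, 0 ≤ x i ∧ x i ≤ s}

/-- `Q` is a square of side length `s` in the plane (in any position) -/
def IsSquareOfSide (Q : Set Plane) (s : ℝ) : Prop :=
  0 ≤ s ∧ ∃ T : Plane ≃ᵢ Plane, Q = T '' standardSquare s

/-- some square of side length `s` contains `n` nonoverlapping unit discs -/
def Contains (s : ℝ) (n : ℕ) : Prop :=
  ∃ Q : Set Plane, IsSquareOfSide Q s ∧ ∃ c : Fin n → Plane,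
    (∀ i, Metric.closedBall (c i) 1 ⊆ Q) ∧
    ∀ i j, i ≠ j → Disjoint (interior (Metric.closedBall (c i) 1)) (interior (Metric.closedBall (c j) 1))

/-- `s_n`, the minimal side length of a square that contains `n` nonoverlapping unit discs -/
noncomputable def minSide (n : ℕ) : ℝ := sInf {s | Contains s n}

/-- the function `F` of the problem -/
noncomputable def F (s : ℝ) : ℝ := s ^ 2 - (3 + √3) * s + 2 + 2 * √3

/-! ### the hexagonal pattern -/

/-- the number of discs in row `j` -/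
def row (K j : ℕ) : ℕ := (K + 2 - j % 2) / 2

theorem row_pair (K m : ℕ) : row K (2 * m) + row K (2 * m + 1) = K + 1 := by
  unfold row; omega

theorem sum_even (K m : ℕ) : ∑ j ∈ range (2 * m), row K j = (K + 1) * m := by
  induction m with
  | zero => simp
  | succ m ih =>
    rw [show 2 * (m + 1) = 2 * m + 1 + 1 by ring, sum_range_succ, sum_range_succ, ih, add_assoc, row_pair]
    ring

theorem sum_row (K m : ℕ) : (K + 1) * m ≤ 2 * ∑ j ∈ range m, row K j := by
  rcases Nat.even_or_odd' m with ⟨r, rfl | rfl⟩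
  · rw [sum_even]; exact le_of_eq (by ring)
  · rw [sum_range_succ, sum_even]
    have h : K + 1 ≤ 2 * row K (2 * r) := by unfold row; omega
    calc (K + 1) * (2 * r + 1) = 2 * ((K + 1) * r) + (K + 1) := by ring
      _ ≤ 2 * ((K + 1) * r) + 2 * row K (2 * r) := by omega
      _ = 2 * ((K + 1) * r + row K (2 * r)) := by ring

/-- the centre of the disc number `i` in row `j` -/
noncomputable def ctr (p : (_ : ℕ) × ℕ) : Plane :=
  !₂[1 + ((2 * p.2 + p.1 % 2 : ℕ) : ℝ), 1 + √3 * p.1]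

theorem ctr_zero (p : (_ : ℕ) × ℕ) : ctr p 0 = 1 + ((2 * p.2 + p.1 % 2 : ℕ) : ℝ) := by
  simp [ctr]

theorem ctr_one (p : (_ : ℕ) × ℕ) : ctr p 1 = 1 + √3 * p.1 := by
  simp [ctr]

theorem dist_ctr {p q : (_ : ℕ) × ℕ} (h : p ≠ q) : 2 ≤ dist (ctr p) (ctr q) := by
  obtain ⟨j, i⟩ := p
  obtain ⟨j', i'⟩ := q
  have h3 : √3 ^ 2 = 3 := Real.sq_sqrt (by norm_num)
  have key : (4 : ℤ) ≤ ((2 * i + j % 2 : ℕ) - (2 * i' + j' % 2 : ℕ) : ℤ) ^ 2 + 3 * ((j : ℤ) - j') ^ 2 := by
    rcases eq_or_ne j j' with rfl | hj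
    · have hi : i ≠ i' := by rintro rfl; exact h rfl
      have h1 : ((2 * i + j % 2 : ℕ) - (2 * i' + j % 2 : ℕ) : ℤ) = 2 * ((i : ℤ) - i') := by
        push_cast; ring
      rw [h1]
      have h2 : 1 ≤ ((i : ℤ) - i') ^ 2 := by
        have : (i : ℤ) - i' ≠ 0 := by omega
        have := sq_pos_of_ne_zero this
        omega
      nlinarith [sq_nonneg ((j : ℤ) - j)]
    · by_cases hd : (2 : ℤ) ≤ |(j : ℤ) - j'|
      · have h1 : (4 : ℤ) ≤ ((j : ℤ) - j') ^ 2 := by
          rw [← sq_abs]; nlinarith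
        nlinarith [sq_nonneg (((2 * i + j % 2 : ℕ) : ℤ) - (2 * i' + j' % 2 : ℕ))]
      · have h0 : (j : ℤ) - j' = 1 ∨ (j : ℤ) - j' = -1 := by
          have h1 : |(j : ℤ) - j'| < 2 := by omega
          rw [abs_lt] at h1
          have h2 : (j : ℤ) - j' ≠ 0 := by omega
          omega
        have h1 : ((2 * i + j % 2 : ℕ) : ℤ) - (2 * i' + j' % 2 : ℕ) ≠ 0 := by omega
        have h2 : 1 ≤ (((2 * i + j % 2 : ℕ) : ℤ) - (2 * i' + j' % 2 : ℕ)) ^ 2 := by
          have := sq_pos_of_ne_zero h1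
          omega
        have h4 : ((j : ℤ) - j') ^ 2 = 1 := by
          rcases h0 with h0 | h0 <;> rw [h0] <;> norm_num
        rw [h4]; linarith
  have keyR : (4 : ℝ) ≤ (((2 * i + j % 2 : ℕ) : ℝ) - ((2 * i' + j' % 2 : ℕ) : ℝ)) ^ 2 + 3 * ((j : ℝ) - j') ^ 2 := by
    exact_mod_cast key
  rw [EuclideanSpace.dist_eq]
  apply Real.le_sqrt_of_sq_le
  rw [Fin.sum_univ_two, ctr_zero, ctr_zero, ctr_one, ctr_one, Real.dist_eq, Real.dist_eq, sq_abs, sq_abs]
  have e1 : (1 + √3 * (j : ℝ) - (1 + √3 * (j' : ℝ))) ^ 2 = 3 * ((j : ℝ) - j') ^ 2 := by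
    rw [show (1 + √3 * (j : ℝ) - (1 + √3 * (j' : ℝ))) = √3 * ((j : ℝ) - j') by ring, mul_pow, h3]
  have e2 : (1 + ((2 * i + j % 2 : ℕ) : ℝ) - (1 + ((2 * i' + j' % 2 : ℕ) : ℝ))) ^ 2 =
      (((2 * i + j % 2 : ℕ) : ℝ) - ((2 * i' + j' % 2 : ℕ) : ℝ)) ^ 2 := by
    ring
  show (2 : ℝ) ^ 2 ≤ (1 + ((2 * i + j % 2 : ℕ) : ℝ) - (1 + ((2 * i' + j' % 2 : ℕ) : ℝ))) ^ 2 +
    (1 + √3 * (j : ℝ) - (1 + √3 * (j' : ℝ))) ^ 2
  rw [e1, e2]
  linarith

theorem ball_sub {s : ℝ} {c : Plane} (hc : ∀ i, 1 ≤ c i ∧ c i ≤ s - 1) :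
    Metric.closedBall c 1 ⊆ standardSquare s := by
  intro x hx i
  rw [Metric.mem_closedBall, dist_eq_norm] at hx
  have h1 : |x i - c i| ≤ 1 := by
    have := (PiLp.norm_apply_le (x - c) i).trans hx
    simpa [Real.norm_eq_abs] using this
  rw [abs_le] at h1
  have := hc i
  constructor <;> linarith [h1.1, h1.2, this.1, this.2]

/-- discs in the hexagonal pattern -/
theorem contains_hex {s : ℝ} (hs : 2 ≤ s) {n : ℕ} (hn : √12 * ((n : ℝ) - 1) < (s - 2) ^ 2) :
    Contains s n := by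
  set σ : ℝ := s - 2 with hσ
  have hσ0 : 0 ≤ σ := by linarith
  set K : ℕ := ⌊σ⌋₊ with hK
  set R : ℕ := ⌊σ / √3⌋₊ with hR
  have h30 : 0 < √3 := by positivity
  have h3 : √3 ^ 2 = 3 := Real.sq_sqrt (by norm_num)
  have h12 : √12 = 2 * √3 := by
    rw [show (12 : ℝ) = 2 ^ 2 * 3 by norm_num, Real.sqrt_mul (by norm_num), Real.sqrt_sq (by norm_num)]
  have hK1 : (K : ℝ) ≤ σ := Nat.floor_le hσ0
  have hK2 : σ < K + 1 := Nat.lt_floor_add_one σ
  have hR1 : (R : ℝ) ≤ σ / √3 := Nat.floor_le (by positivity)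
  have hR2 : σ / √3 < R + 1 := Nat.lt_floor_add_one _
  set P : Finset ((_ : ℕ) × ℕ) := (range (R + 1)).sigma (fun j => range (row K j)) with hP
  have hcard : P.card = ∑ j ∈ range (R + 1), row K j := by
    rw [hP, card_sigma]; simp
  have h2 : (K + 1) * (R + 1) ≤ 2 * P.card := by rw [hcard]; exact sum_row K (R + 1)
  have h2' : ((K : ℝ) + 1) * (R + 1) ≤ 2 * P.card := by exact_mod_cast h2
  have h4 : σ * (σ / √3) < ((K : ℝ) + 1) * (R + 1) := by
    have : 0 ≤ σ / √3 := by positivity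
    nlinarith
  have h5 : σ ^ 2 < √12 * P.card := by
    have h6 : σ * (σ / √3) * √3 = σ ^ 2 := by field_simp
    have h7 : σ * (σ / √3) < 2 * P.card := lt_of_lt_of_le h4 h2'
    rw [h12, ← h6]
    nlinarith
  have hnP : n ≤ P.card := by
    have h6 : √12 * ((n : ℝ) - 1) < √12 * P.card := hn.trans h5
    have h7 : (n : ℝ) - 1 < P.card := lt_of_mul_lt_mul_left h6 (by positivity)
    have h8 : (n : ℝ) < (P.card : ℝ) + 1 := by linarith
    have h9 : n < P.card + 1 := by exact_mod_cast h8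
    omega
  have hmem : ∀ p ∈ P, p.1 < R + 1 ∧ p.2 < row K p.1 := by
    intro p hp
    rw [hP, mem_sigma, mem_range, mem_range] at hp
    exact hp
  refine ⟨standardSquare s, ⟨by linarith, IsometryEquiv.refl _, (Set.image_id _).symm⟩,
    fun i => ctr (P.equivFin.symm (Fin.castLE hnP i)).1, ?_, ?_⟩
  · intro i
    obtain ⟨hm1, hm2⟩ := hmem _ (P.equivFin.symm (Fin.castLE hnP i)).2
    show Metric.closedBall (ctr (P.equivFin.symm (Fin.castLE hnP i)).1) 1 ⊆ standardSquare s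
    set p := (P.equivFin.symm (Fin.castLE hnP i)).1 with hp
    apply ball_sub
    intro l
    fin_cases l
    · show 1 ≤ ctr p 0 ∧ ctr p 0 ≤ s - 1
      rw [ctr_zero]
      have h6 : 2 * p.2 + p.1 % 2 ≤ K := by
        unfold row at hm2; omega
      have h7 : ((2 * p.2 + p.1 % 2 : ℕ) : ℝ) ≤ K := by exact_mod_cast h6
      have h8 : (0 : ℝ) ≤ ((2 * p.2 + p.1 % 2 : ℕ) : ℝ) := Nat.cast_nonneg _
      constructor <;> linarith
    · show 1 ≤ ctr p 1 ∧ ctr p 1 ≤ s - 1
      rw [ctr_one]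
      have h6 : (p.1 : ℝ) ≤ R := by exact_mod_cast Nat.lt_succ_iff.mp hm1
      have h7 : (p.1 : ℝ) ≤ σ / √3 := h6.trans hR1
      have h8 : √3 * (p.1 : ℝ) ≤ σ := by
        calc √3 * (p.1 : ℝ) ≤ √3 * (σ / √3) := by gcongr
          _ = σ := by field_simp
      have h9 : 0 ≤ √3 * (p.1 : ℝ) := by positivity
      constructor <;> linarith
  · intro i j hij
    rw [interior_closedBall _ one_ne_zero, interior_closedBall _ one_ne_zero]
    apply Metric.ball_disjoint_ball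
    have hne : (P.equivFin.symm (Fin.castLE hnP i)).1 ≠ (P.equivFin.symm (Fin.castLE hnP j)).1 := by
      intro h
      apply hij
      have h1 := P.equivFin.symm.injective (Subtype.ext h)
      exact Fin.castLE_injective hnP h1
    have := dist_ctr hne
    linarith

theorem two_le_of_contains {s : ℝ} {n : ℕ} (hn : 1 ≤ n) (h : Contains s n) : 2 ≤ s := by
  obtain ⟨Q, ⟨hs, T, rfl⟩, c, hc, -⟩ := h
  have h0 := hc ⟨0, hn⟩
  set c₀ : Plane := T.symm (c ⟨0, hn⟩) with hc₀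
  have key : ∀ y : Plane, dist y c₀ ≤ 1 → y ∈ standardSquare s := by
    intro y hy
    have h1 : T y ∈ Metric.closedBall (c ⟨0, hn⟩) 1 := by
      rw [Metric.mem_closedBall]
      have h2 : dist (T y) (T c₀) = dist y c₀ := T.isometry.dist_eq _ _
      have h3 : T c₀ = c ⟨0, hn⟩ := by simp [hc₀]
      rw [h3] at h2
      rw [h2]; exact hy
    obtain ⟨z, hz, hzy⟩ := h0 h1
    have : z = y := T.injective hzy
    rwa [this] at hz
  have hn1 : ‖(EuclideanSpace.single (0 : Fin 2) (1 : ℝ) : Plane)‖ = 1 := by simp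
  have h1 := key (c₀ + EuclideanSpace.single 0 1) (by rw [dist_eq_norm, add_sub_cancel_left, hn1])
  have h2 := key (c₀ - EuclideanSpace.single 0 1) (by
    rw [dist_eq_norm, sub_sub_cancel_left, norm_neg, hn1])
  have h3 := (h1 0).2
  have h4 := (h2 0).1
  simp at h3 h4
  linarith

theorem sq_le (n : ℕ) (hn : 1 ≤ n) : 2 ≤ minSide n ∧ (minSide n - 2) ^ 2 ≤ √12 * ((n : ℝ) - 1) := by
  have hn1 : (0 : ℝ) ≤ (n : ℝ) - 1 := by
    have : (1 : ℝ) ≤ n := by exact_mod_cast hn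
    linarith
  set r : ℝ := √(√12 * ((n : ℝ) - 1)) with hr
  have hr0 : 0 ≤ r := Real.sqrt_nonneg _
  have hr2 : r ^ 2 = √12 * ((n : ℝ) - 1) := Real.sq_sqrt (by positivity)
  have hbdd : BddBelow {s | Contains s n} := ⟨2, fun s hs => two_le_of_contains hn hs⟩
  have hall : ∀ t : ℝ, r < t → Contains (2 + t) n := by
    intro t ht
    apply contains_hex (by linarith)
    rw [← hr2, show 2 + t - 2 = t by ring]
    nlinarith
  have h2 : 2 ≤ minSide n := le_csInf ⟨_, hall (r + 1) (by linarith)⟩ fun s hs => two_le_of_contains hn hs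
  refine ⟨h2, ?_⟩
  have h3 : minSide n ≤ 2 + r := by
    apply le_of_forall_gt_imp_ge_of_dense
    intro a ha
    have h4 := hall (a - 2) (by linarith)
    rw [show 2 + (a - 2) = a by ring] at h4
    exact csInf_le hbdd h4
  rw [← hr2]
  have h4 : 0 ≤ minSide n - 2 := by linarith
  have h5 : minSide n - 2 ≤ r := by linarith
  nlinarith

/-- **Q1 as stated, negated form.** For every `n ≥ 1` one has `(s_n - 2)^2 ≤ √12 (n - 1)`, hence
`F(s_n) < √12 n`: equality holds for no positive integer `n`, in particular not infinitely often. -/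
theorem result :
    (∀ n : ℕ, 1 ≤ n → (minSide n - 2) ^ 2 ≤ √12 * ((n : ℝ) - 1)) ∧
    (∀ n : ℕ, 1 ≤ n → F (minSide n) + (√3 - 1) * (minSide n - 2) + √12 ≤ √12 * n ∧ F (minSide n) < √12 * n) ∧
    ¬ {n : ℕ | 1 ≤ n ∧ √12 * n = F (minSide n)}.Infinite := by
  have h30 : 1 < √3 := by
    rw [Real.lt_sqrt (by norm_num)]; norm_num
  have h12 : 0 < √12 := by positivity
  have key : ∀ n : ℕ, 1 ≤ n → F (minSide n) + (√3 - 1) * (minSide n - 2) + √12 ≤ √12 * n := by
    intro n hn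
    obtain ⟨h1, h2⟩ := sq_le n hn
    unfold F
    nlinarith
  have key2 : ∀ n : ℕ, 1 ≤ n → F (minSide n) < √12 * n := by
    intro n hn
    have h1 := key n hn
    have h2 := (sq_le n hn).1
    have h3 : 0 ≤ (√3 - 1) * (minSide n - 2) := mul_nonneg (by linarith) (by linarith)
    linarith
  refine ⟨fun n hn => (sq_le n hn).2, fun n hn => ⟨key n hn, key2 n hn⟩, ?_⟩
  intro hinf
  obtain ⟨n, hn1, hn2⟩ := hinf.nonempty
  exact absurd hn2 (key2 n hn1).ne'

end Pool.Agent.Results.MP_77b5a8_co.HexagonalBound
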